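import Pool.Agent.W422.PI.Stm

set_option autoImplicit false

namespace Pool.Agent.W918.PI

open Matrix Pool.Agent.W422.PI

theorem det_Jm (r : ℕ) (R : Type*) [CommRing R] : (Jm r R).det = 1 := by
  have h : Jm r R = (fromBlocks 1 1 0 1 : Matrix (Fin r ⊕ Fin r) (Fin r ⊕ Fin r) R) *
      (fromBlocks 1 0 (-1) 1 : Matrix (Fin r ⊕ Fin r) (Fin r ⊕ Fin r) R) *
      (fromBlocks 1 1 0 1 : Matrix (Fin r ⊕ Fin r) (Fin r ⊕ Fin r) R) := by
    rw [fromBlocks_multiply, fromBlocks_multiply]
    unfold Jm
    simp
  rw [h, det_mul, det_mul, det_fromBlocks_zero₂₁, det_fromBlocks_zero₁₂]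
  simp

theorem main (h : NFK) : SQ := by
  intro R _ _ _ g A hA
  let K := FractionRing R
  have hA' : Alt (A.map (algebraMap R K)) := by
    refine ⟨?_, fun i => ?_⟩
    · rw [← transpose_map, hA.1]
      ext i j
      simp
    · rw [map_apply, hA.2, map_zero]
  have hdet : (A.map (algebraMap R K)).det = algebraMap R K A.det := by
    rw [RingHom.map_det]
    rfl
  obtain ⟨r, Q, hr, hQ⟩ := h K _ (A.map (algebraMap R K)) hA'
  by_cases hrg : r = g
  · subst hrg
    have h1 : (A.map (algebraMap R K)).det = Q.det ^ 2 := by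
      rw [hQ, det_mul, det_mul, det_Jm, det_transpose]
      ring
    rw [hdet] at h1
    obtain ⟨y, hy⟩ := IsIntegrallyClosed.exists_algebraMap_eq_of_isIntegral_pow (R := R)
      (x := Q.det) (n := 2) (by norm_num) (by rw [← h1]; exact isIntegral_algebraMap)
    refine ⟨y, ?_⟩
    apply IsFractionRing.injective R K
    rw [h1, map_mul, hy, sq]
  · have h0 : (A.map (algebraMap R K)).det = 0 := by
      by_contra hne
      have hu : IsUnit (A.map (algebraMap R K)) :=
        (Matrix.isUnit_iff_isUnit_det _).2 (isUnit_iff_ne_zero.2 hne)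
      have h2 := Matrix.rank_of_isUnit _ hu
      rw [hr] at h2
      simp only [Fintype.card_sum, Fintype.card_fin] at h2
      omega
    rw [hdet] at h0
    have h3 : A.det = 0 := by
      apply IsFractionRing.injective R K
      rw [h0, map_zero]
    exact ⟨0, by rw [h3, mul_zero]⟩

end Pool.Agent.W918.PI
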